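import Pool.Agent.H80.PCF1

open Pool.Agent.H80.PCF

theorem Pool.Agent.Results.MP_b6680e_pr.NotFKG.result :
    ∃ (n m : ℕ) (ends : Fin m → Fin n × Fin n) (α : ℝ),
      (∀ e, (ends e).1 ≠ (ends e).2) ∧ Function.Injective (fun e => s((ends e).1, (ends e).2)) ∧
      0 < α ∧ ∃ A B : Finset (Finset (Fin m)), IsUpperSet (A : Set (Finset (Fin m))) ∧
        IsUpperSet (B : Set (Finset (Fin m))) ∧
        ∑ ω ∈ A ∩ B, mu ends α ω < (∑ ω ∈ A, mu ends α ω) * ∑ ω ∈ B, mu ends α ω :=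
  Pool.Agent.H80.PCF.main
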